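import Pool.Agent.Q157.PracData

/-!
# MP_2c8f22_co: products of irreducible polynomials need not fold into array codes

The conjecture is false: for `(r₁, r₂; n₁, n₂) = (5, 117; 3, 4)` the two polynomials
`X¹² + X⁹ + X⁸ + X⁷ + X⁴ + X³ + X² + X + 1` and
`X¹² + X¹¹ + X¹⁰ + X⁹ + X⁸ + X⁵ + X⁴ + X³ + 1` (irreducible, of exponent `585 = 5 · 117`) fold into
`(5, 117; 3, 4)`-PRACs, their product does not fold into a `(5, 117; 3, 8)`-PRAC: the entries at
`(2,2), (0,5), (0,3), (2,4), (1,7), (1,0)` of every `3 × 8` window of the folded arrays sum to 0.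
-/

open Polynomial Q157.Prac

namespace Pool.Agent.Results.MP_2c8f22_co.ProductFoldingFails

/-- The first polynomial. -/
noncomputable def f₁ : (ZMod 2)[X] := X ^ 12 + X ^ 9 + X ^ 8 + X ^ 7 + X ^ 4 + X ^ 3 + X ^ 2 + X + 1

/-- The second polynomial. -/
noncomputable def f₂ : (ZMod 2)[X] :=
  X ^ 12 + X ^ 11 + X ^ 10 + X ^ 9 + X ^ 8 + X ^ 5 + X ^ 4 + X ^ 3 + 1

lemma f₁_eq : f₁ = bp 5023 := by
  unfold f₁ bp
  simp only [Finset.sum_range_succ, Finset.sum_range_zero]
  simp [Nat.testBit]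
  ring

lemma f₂_eq : f₂ = bp 7993 := by
  unfold f₂ bp
  simp only [Finset.sum_range_succ, Finset.sum_range_zero]
  simp [Nat.testBit]
  ring

lemma cop : Nat.Coprime 5 117 := by norm_num

lemma exp_of {F : ℕ} (hC : Cert F) : IsExponent (bp F) (5 * 117) := by
  have h := exponent_of_cert hC
  have e : (585 : ℕ) = 5 * 117 := by norm_num
  rwa [e] at h

lemma crt_val {f : (ZMod 2)[X]} (hd : f ∣ X ^ (5 * 117) - 1) {s : ℕ → ZMod 2}
    (hs : Generated f s) (i : ZMod 5) (j : ZMod 117) (t : ℕ) (h1 : (t : ZMod 5) = i)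
    (h2 : (t : ZMod 117) = j) : s (crt cop i j) = s t := by
  obtain ⟨c1, c2, -⟩ := crt_spec cop i j
  exact period_modEq (period_of_dvd hs hd) (modEq_crt cop (c1.trans h1.symm) (c2.trans h2.symm))

lemma inj_of {F : ℕ} (hC : Cert F)
    (hspan : ∀ i < 12, ∃ l : List ℕ, (∀ t ∈ l, t ∈ posList) ∧
      xors (l.map fun i => (stp F)^[i] 1) = 2 ^ i)
    (s : ℕ → ZMod 2) (hs : Generated (bp F) s) (hW : W cop 3 4 s = 0) : s = 0 := by
  have hd : bp F ∣ X ^ (5 * 117) - 1 := (exp_of hC).1.2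
  refine inj_of_cert hC.lt hC.bit posList hspan hs ?_
  have key : ∀ (a : Fin 3) (b : Fin 4) (t : ℕ), (t : ZMod 5) = ((a : ℕ) : ZMod 5) →
      (t : ZMod 117) = ((b : ℕ) : ZMod 117) → s t = 0 := by
    intro a b t h1 h2
    rw [← crt_val hd hs _ _ t h1 h2]
    exact congrFun (congrFun hW a) b
  intro t ht
  simp only [posList, List.mem_cons, List.not_mem_nil, or_false] at ht
  rcases ht with rfl | rfl | rfl | rfl | rfl | rfl | rfl | rfl | rfl | rfl | rfl | rfl
  · exact key 0 0 _ (by decide) (by decide)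
  · exact key 0 1 _ (by decide) (by decide)
  · exact key 0 2 _ (by decide) (by decide)
  · exact key 0 3 _ (by decide) (by decide)
  · exact key 1 0 _ (by decide) (by decide)
  · exact key 1 1 _ (by decide) (by decide)
  · exact key 1 2 _ (by decide) (by decide)
  · exact key 1 3 _ (by decide) (by decide)
  · exact key 2 0 _ (by decide) (by decide)
  · exact key 2 1 _ (by decide) (by decide)
  · exact key 2 2 _ (by decide) (by decide)
  · exact key 2 3 _ (by decide) (by decide)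

lemma prac_of {F : ℕ} (hC : Cert F)
    (hspan : ∀ i < 12, ∃ l : List ℕ, (∀ t ∈ l, t ∈ posList) ∧
      xors (l.map fun i => (stp F)^[i] 1) = 2 ^ i) {C : Set (Arr 5 117)}
    (h : IsFolding 5 117 (bp F) C) : IsPRAC 5 117 3 4 C := by
  obtain ⟨hm, hdeg⟩ := bp_monic hC.bit
  exact prac_of_inj cop 3 4 (irr_of_cert hC) hm hdeg (exp_of hC) (by decide)
    (inj_of hC hspan) h

lemma all_of {F : ℕ} (hC : Cert F)
    (hspan : ∀ i < 12, ∃ l : List ℕ, (∀ t ∈ l, t ∈ posList) ∧
      xors (l.map fun i => (stp F)^[i] 1) = 2 ^ i) :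
    Irreducible (bp F) ∧ (bp F).natDegree = 3 * 4 ∧ IsExponent (bp F) (5 * 117) ∧
      ∀ C, IsFolding 5 117 (bp F) C → IsPRAC 5 117 3 4 C :=
  ⟨irr_of_cert hC, (bp_monic hC.bit).2, exp_of hC, fun _ h => prac_of hC hspan h⟩

lemma bp_ne : bp 5023 ≠ bp 7993 := by
  intro h
  have h1 : bp (5023 ^^^ 7993) = 0 := by
    rw [bp_xor, h]
    exact CharTwo.add_self_eq_zero _
  have h2 := congrArg (fun p : (ZMod 2)[X] => p.coeff 11) h1
  revert h2
  unfold bp
  simp only [Finset.sum_range_succ, Finset.sum_range_zero]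
  simp [Nat.testBit, coeff_X]

lemma copr : IsCoprime (bp 5023) (bp 7993) := by
  rw [(irr_of_cert cert₁).coprime_iff_not_dvd]
  intro h
  have h1 : Associated (bp 5023) (bp 7993) :=
    (irr_of_cert cert₁).associated_of_dvd (irr_of_cert cert₂) h
  exact bp_ne (Polynomial.eq_of_monic_of_associated (bp_monic (by decide)).1
    (bp_monic (by decide)).1 h1)

lemma prod_dvd : bp 5023 * bp 7993 ∣ X ^ (5 * 117) - 1 :=
  copr.mul_dvd (exp_of cert₁).1.2 (exp_of cert₂).1.2

/-- the relation between the entries of the windows -/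
def φ (M : Matrix (Fin 3) (Fin 8) (ZMod 2)) : ZMod 2 :=
  M 2 2 + (M 0 5 + (M 0 3 + (M 2 4 + (M 1 7 + M 1 0))))

lemma rel_windows (s : ℕ → ZMod 2) (hs : Generated (bp 5023 * bp 7993) s) :
    φ (W cop 3 8 s) = 0 := by
  have h1 : bp 5023 * bp 7993 ∣ (relList.map fun i => (X : (ZMod 2)[X]) ^ i).sum :=
    copr.mul_dvd rel₁ rel₂
  have h2 := congrFun (aeval_of_dvd hs h1) 0
  rw [aeval_list] at h2
  simp only [relList, List.map_cons, List.map_nil, List.sum_cons, List.sum_nil, zero_add,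
    add_zero, Pi.zero_apply] at h2
  have key : ∀ (a : Fin 3) (b : Fin 8) (t : ℕ), (t : ZMod 5) = ((a : ℕ) : ZMod 5) →
      (t : ZMod 117) = ((b : ℕ) : ZMod 117) → W cop 3 8 s a b = s t := by
    intro a b t h1 h2
    exact crt_val prod_dvd hs _ _ t h1 h2
  unfold φ
  rw [key 2 2 2 (by decide) (by decide), key 0 5 5 (by decide) (by decide),
    key 0 3 120 (by decide) (by decide), key 2 4 472 (by decide) (by decide),
    key 1 7 241 (by decide) (by decide), key 1 0 351 (by decide) (by decide)]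
  exact h2

lemma not_prac {C : Set (Arr 5 117)} (h : IsFolding 5 117 (bp 5023 * bp 7993) C) :
    ¬ IsPRAC 5 117 3 8 C := by
  refine not_prac_of_rel cop 3 8 prod_dvd φ (fun a b => if a = 0 ∧ b = 3 then 1 else 0) ?_ ?_
    rel_windows h
  · intro h0
    have := congrFun (congrFun h0 0) 3
    revert this
    decide
  · unfold φ
    decide

/-- **The conjecture is false.** For `(r₁, r₂; n₁, n₂) = (5, 117; 3, 4)` (so `n₁ < r₁ < 2 n₁`) the
distinct polynomials `f₁` and `f₂` are irreducible of degree `n₁ n₂ = 12` and exponent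
`r₁ r₂ = 585`, every set of arrays obtained by folding the nonzero sequences generated by one of
them is a `(5, 117; 3, 4)`-PRAC, but no set of arrays obtained by folding the nonzero sequences
generated by the product `f₁ f₂` (such sets exist) is a `(5, 117; 3, 8)`-PRAC. -/
theorem result :
    ¬ Conjecture ∧
    (Nat.Coprime 5 117 ∧ 3 < 5 ∧ 5 < 2 * 3 ∧ f₁ ≠ f₂ ∧
      (∀ f ∈ ({f₁, f₂} : Set (ZMod 2)[X]), Irreducible f ∧ f.natDegree = 3 * 4 ∧
        IsExponent f (5 * 117) ∧ (∃ C, IsFolding 5 117 f C) ∧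
        ∀ C, IsFolding 5 117 f C → IsPRAC 5 117 3 4 C) ∧
      (∃ C, IsFolding 5 117 (f₁ * f₂) C) ∧
      ∀ C, IsFolding 5 117 (f₁ * f₂) C → ¬ IsPRAC 5 117 3 (2 * 4) C) := by
  have hA := all_of cert₁ span₁
  have hB := all_of cert₂ span₂
  have hex : ∃ C, IsFolding 5 117 (f₁ * f₂) C := by
    rw [f₁_eq, f₂_eq]
    exact exists_folding 5 117 (5 * 117) (by norm_num) prod_dvd
  have hnot : ∀ C, IsFolding 5 117 (f₁ * f₂) C → ¬ IsPRAC 5 117 3 (2 * 4) C := by
    intro C hC
    rw [f₁_eq, f₂_eq] at hC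
    exact not_prac hC
  have hne : f₁ ≠ f₂ := by
    rw [f₁_eq, f₂_eq]
    exact bp_ne
  refine ⟨?_, cop, by norm_num, by norm_num, hne, ?_, hex, hnot⟩
  · intro hconj
    obtain ⟨C, hC⟩ := hex
    have h := hconj 5 117 3 4 2 ![f₁, f₂] cop (by norm_num) (by norm_num) ?_ ?_
      Finset.univ Finset.univ_nonempty C (by simpa using hC)
    · exact hnot C hC (by simpa using h)
    · intro i j hij
      fin_cases i <;> fin_cases j
      · rfl
      · exact absurd (by simpa using hij) hne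
      · exact absurd (by simpa using hij.symm) hne
      · rfl
    · intro i
      fin_cases i
      · simpa [f₁_eq] using hA
      · simpa [f₂_eq] using hB
  · intro f hf
    rcases hf with rfl | rfl
    · rw [f₁_eq]
      exact ⟨hA.1, hA.2.1, hA.2.2.1, exists_folding 5 117 (5 * 117) (by norm_num) hA.2.2.1.1.2,
        hA.2.2.2⟩
    · rw [f₂_eq]
      exact ⟨hB.1, hB.2.1, hB.2.2.1, exists_folding 5 117 (5 * 117) (by norm_num) hB.2.2.1.1.2,
        hB.2.2.2⟩

end Pool.Agent.Results.MP_2c8f22_co.ProductFoldingFails
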